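import Pool.Agent.H53.GX.Targets2
import Pool.Agent.H29.GM.JZ

/-!
# Forbidden coloured patterns, no precolouring: the local sorts have a common new element
-/

set_option autoImplicit false
set_option linter.unusedVariables false

namespace Pool.Agent.H19.GX

open Pool.Agent.H68.BP Pool.Agent.H58.SF Pool.Agent.H53.GM Pool.Agent.H53.GX
open Pool.Agent.H53.GR (So)
open Pool.Agent.H29.GM
open Classical

section

variable {X 𝓛 : Type} {N k : ℕ} {R : 𝓛 → (So N k → X) → Prop} {l₀ : 𝓛} {I : Finset (Fin k)}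
  {ι : (J : Type) → [Finite J] → [Nonempty J] → (So N k → (J → X) → X) → J}

/-- families are closed under composition -/
theorem jzx_comp {J J' : Type} [Nonempty J'] {F : So N k → (J → X) → X}
    {G : J → So N k → (J' → X) → X} (hF : FmI R I J F) (hG : ∀ i, FmI R I J' (G i)) :
    FmI R I J' (fun e w => F e (fun i => G i e w)) where
  fam := by
    intro l p hp
    refine hF.fam l (fun i e => G i e (fun j => p j e)) ⟨fun i => (hG i).fam l p hp, ?_⟩
    intro e he i i'
    obtain ⟨j0⟩ := ‹Nonempty J'›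
    have h : (fun j => p j e) = fun _ => p j0 e := funext fun j => hp.2 e he j j0
    change G i e (fun j => p j e) = G i' e (fun j => p j e)
    rw [h, (hG i).idem, (hG i').idem]
  idem := by
    intro e t
    have h : (fun i => G i e (fun _ => t)) = fun _ => t := funext fun i => (hG i).idem e t
    change F e (fun i => G i e (fun _ => t)) = t
    rw [h, hF.idem]

/-- the inner families of a ternary step -/
theorem jzx_cons {J' : Type} (a b c : So N k → (J' → X) → X) (T : So N k → (Fin 3 → X) → X) :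
    (fun (e : So N k) (w : J' → X) => T e ![a e w, b e w, c e w]) =
      fun e w => T e (fun i => (![a, b, c] : Fin 3 → So N k → (J' → X) → X) i e w) := by
  funext e w
  refine congrArg (T e) (funext fun i => ?_)
  fin_cases i <;> rfl

theorem jzx_fam {J' : Type} [Nonempty J'] {a b c : So N k → (J' → X) → X}
    (ha : FmI R I J' a) (hb : FmI R I J' b) (hc : FmI R I J' c) :
    ∀ i, FmI R I J' ((![a, b, c] : Fin 3 → So N k → (J' → X) → X) i) := by
  intro i
  fin_cases i
  · exact ha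
  · exact hb
  · exact hc

theorem jzx_fm {J' : Type} [Nonempty J'] {a b c : So N k → (J' → X) → X}
    {T : So N k → (Fin 3 → X) → X} (hT : FmI R I (Fin 3) T)
    (ha : FmI R I J' a) (hb : FmI R I J' b) (hc : FmI R I J' c) :
    FmI R I J' (fun e w => T e ![a e w, b e w, c e w]) := by
  rw [jzx_cons]
  exact jzx_comp hT (jzx_fam ha hb hc)

theorem jzx_iota (hι : Iot R l₀ I ι) {J' : Type} [Finite J'] [Nonempty J']
    {a b c : So N k → (J' → X) → X}
    {T : So N k → (Fin 3 → X) → X} (hT : FmI R I (Fin 3) T)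
    (ha : FmI R I J' a) (hb : FmI R I J' b) (hc : FmI R I J' c) :
    ι J' (fun e w => T e ![a e w, b e w, c e w]) =
      ι J' ((![a, b, c] : Fin 3 → So N k → (J' → X) → X) (ι (Fin 3) T)) := by
  rw [jzx_cons]
  exact hι.comp (Fin 3) J' T _ hT (jzx_fam ha hb hc)

theorem jzx_itT {T : So N k → (Fin 3 → X) → X} (hT : FmI R I (Fin 3) T) (m : ℕ) :
    FmI R I (Fin 3) (itT T m) := by
  induction m with
  | zero => exact jz_pr 2
  | succ m ih => exact jzx_fm hT (jz_pr 0) (jz_pr 1) ih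

/-- the value of `ι` at a ternary step -/
theorem jzx_two (hι : Iot R l₀ I ι) {T : So N k → (Fin 3 → X) → X} (hT : FmI R I (Fin 3) T)
    {m : ℕ} (hm : 1 ≤ m) (h : ∀ e, EqS R l₀ I e (itT T m) (fun e w => w 2)) :
    ι (Fin 3) T = 2 := by
  obtain ⟨m, rfl⟩ : ∃ m', m = m' + 1 := ⟨m - 1, by omega⟩
  have h1 : ι (Fin 3) (itT T (m + 1)) = 2 := by
    rw [hι.eqv (Fin 3) _ _ (jzx_itT hT _) (jz_pr 2) h]
    exact hι.pr (Fin 3) 2
  have h2 : ι (Fin 3) (itT T (m + 1)) = ι (Fin 3)
      ((![fun e w => w 0, fun e w => w 1, itT T m] : Fin 3 → So N k → (Fin 3 → X) → X)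
        (ι (Fin 3) T)) :=
    jzx_iota hι hT (jz_pr 0) (jz_pr 1) (jzx_itT hT m)
  rw [h1] at h2
  generalize ι (Fin 3) T = c at h2 ⊢
  fin_cases c
  · exfalso
    have h3 : (2 : Fin 3) = ι (Fin 3) (fun (e : So N k) (w : Fin 3 → X) => w 0) := h2
    rw [hι.pr] at h3
    exact absurd h3 (by decide)
  · exfalso
    have h3 : (2 : Fin 3) = ι (Fin 3) (fun (e : So N k) (w : Fin 3 → X) => w 1) := h2
    rw [hι.pr] at h3
    exact absurd h3 (by decide)
  · rfl

/-- a ternary step does not change `ι` -/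
theorem jzx_step (hι : Iot R l₀ I ι) {G G' : So N k → (Fin 2 → X) → X}
    (hG : FmI R I (Fin 2) G) (hG' : FmI R I (Fin 2) G')
    {T : So N k → (Fin 3 → X) → X} (hT : FmI R I (Fin 3) T)
    (hGT : ∀ e, EqS R l₀ I e G' (fun e w => T e ![w 0, w 1, G e w]))
    {m : ℕ} (hm : 1 ≤ m) (h : ∀ e, EqS R l₀ I e (itT T m) (fun e w => w 2)) :
    ι (Fin 2) G = ι (Fin 2) G' := by
  rw [hι.eqv (Fin 2) G' _ hG' (jzx_fm hT (jz_pr 0) (jz_pr 1) hG) hGT,
    jzx_iota hι hT (jz_pr 0) (jz_pr 1) hG, jzx_two hι hT hm h]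
  rfl

end

theorem pf_JZX (hPIN : Pool.Agent.H53.GM.T_PIN) : Pool.Agent.H53.GX.T_JZX := by
  intro X 𝓛 _ N k R l₀ rd I ι hB hι hC
  refine ⟨?_, ?_, ?_⟩
  · by_contra hc
    push Not at hc
    obtain ⟨F, hF1, hF2, hF3⟩ := hPIN X 𝓛 N k R l₀ rd I ι hB hι 1
    have h1 := hι.eqv (Fin (1 + 1)) (F 0) (F 1) (hF1 0) (hF1 1) fun e => hF3 e (hc e) 0 1
    rw [hF2 0, hF2 1] at h1
    exact absurd h1 (by decide)
  · rintro e ⟨n, p, hp, h⟩
    by_contra hI
    have h1 := h (fun e w => w 0) (fun e w => w 1) (jz_pr 0) (jz_pr 1) (hp.2 e hI 0 1)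
    rw [hι.pr, hι.pr] at h1
    exact absurd h1 (by simp)
  · obtain ⟨H, D, hH, hD, hCh⟩ := hC
    obtain ⟨r, hr⟩ := jz_pat (ι (Fin 6) H) (ι (Fin 2) D)
    obtain ⟨m, G, hG, hG0, hGm, hstep⟩ := hCh r
    have hHr : (fun (e : So N k) (w : Fin 2 → X) => H e (pat r (w 0) (w 1))) =
        fun e w => H e (fun i => w (pat r (0 : Fin 2) 1 i)) := by
      funext e w
      refine congrArg (H e) (funext fun i => ?_)
      exact (pat_map w r 0 1 i).symm
    have h0 : ι (Fin 2) (G 0) = pat r (0 : Fin 2) 1 (ι (Fin 6) H) := by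
      rw [← jz_iota hι hH (pat r (0 : Fin 2) 1), ← hHr]
      refine hι.eqv (Fin 2) (G 0) _ (hG 0) ?_ hG0
      rw [hHr]
      exact jz_mnr hH _
    have hm : ι (Fin 2) (G m) = ι (Fin 2) D := hι.eqv (Fin 2) (G m) D (hG m) hD hGm
    obtain ⟨j, hj, hne⟩ := jz_step (fun j => ι (Fin 2) (G j)) m (by
      rw [h0, hm]
      exact hr)
    rcases hstep j hj with ⟨v, hv, hvG⟩ | ⟨T, hT, hGT, m', hm', hit⟩
    · refine ⟨v, hv, ?_⟩
      rintro e ⟨n, p, hp, h⟩
      by_contra hve
      apply hne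
      have hle : 2 ≤ n + 2 := by omega
      have h1 := h (fun e w => G j e (fun b => w (Fin.castLE hle b)))
        (fun e w => G (j + 1) e (fun b => w (Fin.castLE hle b))) (jz_mnr (hG j) _)
        (jz_mnr (hG (j + 1)) _)
        (hvG e hve (fun b => p (Fin.castLE hle b))
          ⟨fun b => hp.1 _, fun e' he' b b' => hp.2 e' he' _ _⟩)
      rw [jz_iota hι (hG j), jz_iota hι (hG (j + 1))] at h1
      exact Fin.castLE_injective hle h1
    · exact absurd (jzx_step hι (hG j) (hG (j + 1)) hT hGT hm' hit) hne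

end Pool.Agent.H19.GX
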