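import Pool.Agent.H53.GX.Targets2

/-!
# Forbidden coloured patterns, no precolouring: chains of labellings (row LBC)
-/

set_option autoImplicit false
set_option linter.unusedVariables false

namespace Pool.Agent.H19.GX

open Pool.Agent.H68.BP Pool.Agent.H58.SF Pool.Agent.H53.GM Pool.Agent.H53.GX
open Pool.Agent.H53.GR (So)
open Classical

/-- the region of the path `r` at the level `q` -/
def rgnL (L : ℕ) (r : Fin 3) (q : ℕ) : Rg L :=
  if q = 0 then none
  else if h : q - 1 < L then some (some (⟨q - 1, h⟩, r)) else some none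

theorem rgnL_zero (L : ℕ) (r : Fin 3) : rgnL L r 0 = none := by
  unfold rgnL
  rw [if_pos rfl]

theorem rgnL_top (L : ℕ) (r : Fin 3) : rgnL L r (L + 1) = some none := by
  unfold rgnL
  rw [if_neg (by omega), dif_neg (by omega)]

theorem lev_rgnL (L : ℕ) (r : Fin 3) (q : ℕ) : lev (rgnL L r q) = min q (L + 1) := by
  unfold rgnL
  split_ifs with h1 h2
  · subst h1
    simp [lev]
  · simp only [lev]
    omega
  · simp only [lev]
    omega

theorem inR_rgnL (L : ℕ) (r : Fin 3) (q : ℕ) : inR r (rgnL L r q) := by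
  unfold rgnL
  split_ifs with h1 h2
  · trivial
  · rfl
  · trivial

theorem adj_rgnL (L : ℕ) (r : Fin 3) (q q' : ℕ) (h : q ≤ q' + 1) (h' : q' ≤ q + 1) :
    Adj (rgnL L r q) (rgnL L r q') := by
  refine ⟨?_, ?_, ?_⟩
  · rw [lev_rgnL, lev_rgnL]
    omega
  · rw [lev_rgnL, lev_rgnL]
    omega
  · intro x x' hx hx'
    have h1 := inR_rgnL L r q
    have h2 := inR_rgnL L r q'
    rw [hx] at h1
    rw [hx'] at h2
    change x.2 = r at h1
    change x'.2 = r at h2
    rw [h1, h2]

/-- the labelling number `j` of the path `r` -/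
def lbL (L k : ℕ) (r : Fin 3) (j : ℕ) (v : Fin k) : Rg L :=
  rgnL L r (j / k + if (v : ℕ) < j % k then 1 else 0)

theorem lbL_zero (L k : ℕ) (r : Fin 3) : lbL L k r 0 = fun _ => none := by
  funext v
  unfold lbL
  simp [rgnL_zero]

theorem lbL_top (L k : ℕ) (hk : 1 ≤ k) (r : Fin 3) :
    lbL L k r ((L + 1) * k) = fun _ => some none := by
  funext v
  unfold lbL
  rw [Nat.mul_div_cancel _ (by omega), Nat.mul_mod_left]
  simp [rgnL_top]

theorem lbL_succ (L k : ℕ) (r : Fin 3) (j : ℕ) (v : Fin k) (hv : (v : ℕ) ≠ j % k) :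
    lbL L k r j v = lbL L k r (j + 1) v := by
  have hk : 0 < k := lt_of_le_of_lt (Nat.zero_le _) v.2
  have hvk := v.2
  unfold lbL
  congr 1
  have hj := Nat.div_add_mod j k
  have hm := Nat.mod_lt j hk
  by_cases h : j % k + 1 = k
  · have h1 : (j + 1) / k = j / k + 1 := by
      have : j + 1 = k * (j / k + 1) := by
        rw [mul_add, mul_one]
        omega
      rw [this, Nat.mul_div_cancel_left _ hk]
    have h2 : (j + 1) % k = 0 := by
      have : j + 1 = k * (j / k + 1) := by
        rw [mul_add, mul_one]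
        omega
      rw [this, Nat.mul_mod_right]
    rw [h1, h2, if_pos (by omega), if_neg (by omega)]
  · have h3 : j + 1 = j % k + 1 + k * (j / k) := by omega
    have h1 : (j + 1) / k = j / k := by
      rw [h3, Nat.add_mul_div_left _ _ hk, Nat.div_eq_of_lt (by omega), zero_add]
    have h2 : (j + 1) % k = j % k + 1 := by
      rw [h3, Nat.add_mul_mod_self_left, Nat.mod_eq_of_lt (by omega)]
    rw [h1, h2]
    congr 1
    by_cases h4 : (v : ℕ) < j % k
    · rw [if_pos h4, if_pos (by omega)]
    · rw [if_neg h4, if_neg (by omega)]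

/-- Chains of labellings. -/
theorem pf_LBC : Pool.Agent.H53.GX.T_LBC := by
  intro k L r hk hL
  refine ⟨(L + 1) * k, lbL L k r, fun j v => inR_rgnL L r _, fun j v v' => ?_, lbL_zero L k r,
    lbL_top L k hk r, fun j _ => ?_⟩
  · refine adj_rgnL L r _ _ ?_ ?_
    · split_ifs <;> omega
    · split_ifs <;> omega
  · have hjk : j % k < k := Nat.mod_lt j (by omega)
    refine ⟨⟨j % k, hjk⟩, fun v hv => lbL_succ L k r j v fun h => hv (Fin.ext h)⟩

end Pool.Agent.H19.GX
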