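import Pool.Agent.H53.GX.Targets2
import Pool.Agent.H75.GM.FAC

/-!
# Forbidden coloured patterns, no precolouring: comparison of the corrected outputs (row LBE)
-/

set_option autoImplicit false
set_option linter.unusedVariables false

namespace Pool.Agent.H19.GX

open Pool.Agent.H68.BP Pool.Agent.H58.SF Pool.Agent.H53.GM Pool.Agent.H53.GX
open Pool.Agent.H53.GR (So)
open Pool.Agent.H75.GM
open Classical

section

variable {τ σ : Sig} {N k : ℕ} {F : Set (Str τ (Fin N))} {Al : Fin σ.m → Fin τ.m → Prop}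
  {I : Finset (Fin k)}

/-- equal configurations have equal corrected outputs -/
theorem lbe_main {L : ℕ} {eps : Ty τ N (Fin k) → Ty τ N (Fin k)} (hC : Core F Al eps)
    {a : Ty τ N (Fin (k + k))} {Out : Nm τ N k L → Ty τ N (Fin k)}
    {th : Nm τ N k L → Ty τ N (Fin k) → Ty τ N (Fin k)} (h : CorP F Al I a eps Out th)
    {q q' : Nm τ N k L} {e : Finset (Fin k)} (hq : CfD F I a q) (hq' : CfD F I a q')
    (he : EqD I a e q q') :
    rse e (th q (eps (Out q))) = rse e (th q' (eps (Out q'))) := by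
  have h1 := h.out.rl q hq.cf
  have h2 := h.out.rl q' hq'.cf
  refine h.eq q q' e hq hq' he _ ⟨hC.nat.mem _ h1, hC.idem _ h1⟩ _
    ⟨hC.nat.mem _ h2, hC.idem _ h2⟩ ?_
  exact hC.nat.nat _ h1 _ h2 e (h.out.eq q q' e hq.cf hq'.cf he.eqx)

theorem lbe_pat {C : Set (Ty τ N (Fin k))} (r : Fin 3) {P : Fin 2 → Ty τ N (Fin k)}
    (hP : VP C I P) : VP C I (pat r (P 0) (P 1)) := by
  have h0 : ∀ c, ∃ i, pat r (P 0) (P 1) c = P i := by
    intro c
    rcases pat_cases r (P 0) (P 1) c with h | h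
    · exact ⟨0, h⟩
    · exact ⟨1, h⟩
  constructor
  · intro c
    obtain ⟨i, hi⟩ := h0 c
    rw [hi]
    exact hP.mem i
  · intro e he c c'
    obtain ⟨i, hi⟩ := h0 c
    obtain ⟨i', hi'⟩ := h0 c'
    rw [hi, hi']
    exact hP.eq e he i i'

theorem lbe_cst {C : Set (Ty τ N (Fin k))} (r r' : Fin 3) {P : Fin 2 → Ty τ N (Fin k)}
    (hP : VP C I P) (c : Fin 6) :
    rse (∅ ∪ I) (pat r (P 0) (P 1) c) = rse (∅ ∪ I) (pat r' (P 0) (P 1) c) := by
  have hI : ¬ I ⊂ ∅ ∪ I := by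
    rw [Finset.empty_union]
    exact fun h => h.2 (Finset.Subset.refl _)
  have h0 : ∀ (r : Fin 3) (c : Fin 6), rse (∅ ∪ I) (pat r (P 0) (P 1) c) =
      rse (∅ ∪ I) (P 0) := by
    intro r c
    rcases pat_cases r (P 0) (P 1) c with h | h
    · rw [h]
    · rw [h]
      exact hP.eq _ hI 1 0
  rw [h0, h0]

/-- the kinds in the region `S` do not depend on the path -/
theorem lbe_kdx {L : ℕ} (a : Ty τ N (Fin (k + k))) (r r' : Fin 3)
    (P : Fin 2 → Ty τ N (Fin k)) (s : Finset (Fin k)) :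
    kdx I a (cfg I r (fun _ => (some none : Rg L)) (pat r (P 0) (P 1))) s =
      kdx I a (cfg I r' (fun _ => (some none : Rg L)) (pat r' (P 0) (P 1))) s := by
  have hps : ∀ v ∈ ps s, lbx (fun _ => (some none : Rg L)) v = some none := by
    intro v hv
    obtain ⟨x, -, rfl⟩ := Finset.mem_image.1 hv
    unfold lbx
    rw [Fin.addCases_left]
  unfold kdx cfg
  dsimp only
  rw [kd_congr (lb' := fun _ => some none) a r _ hps,
    kd_congr (lb' := fun _ => some none) a r' _ hps]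
  rcases (ps s).eq_empty_or_nonempty with h | h
  · rw [h]
    unfold kd rsG pts
    simp
  · refine kd_some a r r' _ _ h fun d => ?_
    obtain ⟨h1, h2⟩ := pat_ix r (P 0) (P 1)
    obtain ⟨h3, h4⟩ := pat_ix r' (P 0) (P 1)
    fin_cases d
    · exact congrArg (fun t => rse (ps (Finset.univ \ I) ∪ cst I) (dup t)) (h1.trans h3.symm)
    · exact congrArg (fun t => rse (ps (Finset.univ \ I) ∪ cst I) (dup t)) (h2.trans h4.symm)

end

theorem pf_LBE (hCFG : Pool.Agent.H53.GX.T_CFG) : Pool.Agent.H53.GX.T_LBE := by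
  intro τ σ N k F Al hk eps hC I Out th hcor
  have hCS : ∀ P ∈ CS F eps, Rl F P := fun P hP => hP.1
  have hadj : ∀ v v' : Fin k, Adj ((fun _ => none : Fin k → Rg (N + 1)) v)
      ((fun _ => none : Fin k → Rg (N + 1)) v') :=
    fun v v' => ⟨by simp [lev], by simp [lev], fun q q' h => by cases h⟩
  have hadj' : ∀ v v' : Fin k, Adj ((fun _ => some none : Fin k → Rg (N + 1)) v)
      ((fun _ => some none : Fin k → Rg (N + 1)) v') :=
    fun v v' => ⟨by simp [lev], by simp [lev], fun q q' h => by cases h⟩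
  refine ⟨?_, ?_, ?_⟩
  · intro r r' P hP e
    obtain ⟨h1, h2, -, h4⟩ := hCFG τ σ N k (N + 1) F I hk (CS F eps) hCS r (fun _ => none)
      (fun _ => trivial) hadj P hP (Or.inl fun _ => rfl)
    obtain ⟨-, h2', -, -⟩ := hCFG τ σ N k (N + 1) F I hk (CS F eps) hCS r' (fun _ => none)
      (fun _ => trivial) hadj P hP (Or.inl fun _ => rfl)
    exact lbe_main hC (hcor _ h1) h2 h2'
      ((h4 r' (fun _ => none) P e hP (fun _ _ => rfl) fun _ => rfl).2.2 fun _ => rfl)
  · intro r r' P hP e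
    obtain ⟨h1, h2, -, h4⟩ := hCFG τ σ N k (N + 1) F I hk (CS F eps) hCS r (fun _ => some none)
      (fun _ => trivial) hadj' _ (lbe_pat r hP) (Or.inr ⟨P 0, P 1, rfl⟩)
    obtain ⟨-, h2', -, -⟩ := hCFG τ σ N k (N + 1) F I hk (CS F eps) hCS r' (fun _ => some none)
      (fun _ => trivial) hadj' _ (lbe_pat r' hP) (Or.inr ⟨P 0, P 1, rfl⟩)
    have ha := (h4 r' (fun _ => some none) _ ∅ (lbe_pat r' hP) (fun _ _ => rfl)
      fun c => lbe_cst r r' hP c).1
    unfold Ps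
    rw [← ha] at h2' ⊢
    refine lbe_main hC (hcor _ h1) h2 h2' ⟨⟨fun _ _ => Iff.rfl, fun _ _ _ => rfl, ?_⟩,
      fun _ _ => rfl⟩
    exact lbe_kdx _ r r' P _
  · intro r lb lb' hr ha hr' ha' u hu hlb P hP e hue
    obtain ⟨h1, h2, -, h4⟩ := hCFG τ σ N k (N + 1) F I hk (CS F eps) hCS r lb hr ha _
      (lbe_pat r hP) (Or.inr ⟨P 0, P 1, rfl⟩)
    obtain ⟨-, h2', -, -⟩ := hCFG τ σ N k (N + 1) F I hk (CS F eps) hCS r lb' hr' ha' _
      (lbe_pat r hP) (Or.inr ⟨P 0, P 1, rfl⟩)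
    exact lbe_main hC (hcor _ h1) h2 h2'
      ((h4 r lb' _ e (lbe_pat r hP) (fun v hv => hlb v fun h => hue (h ▸ hv))
        fun _ => rfl).2.1 rfl)

end Pool.Agent.H19.GX
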